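import Pool.Agent.Helper40.IZ.Stmts

/-!
The cocycle of a finite dimensional invariant space (row CYC of the sheet IZ).
-/

set_option linter.unusedSectionVars false
set_option linter.deprecated false

open Filter MeasureTheory Topology
open scoped ComplexConjugate

namespace Pool.Agent.Helper36.IZY

open Pool.Agent.Helper16.AZ (T E Op mm)
open Pool.Agent.Helper16.BZ (co)
open Pool.Agent.Helper40.DZ (RI UR)
open Pool.Agent.Helper40.IZP (FibreCts)
open Pool.Agent.Helper40.IZ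

/-! ### compact families of fibres -/

/-- upper semicontinuity of a compact family of fibres -/
theorem fib_cont {Y Z C : Type*} [TopologicalSpace Y] [T2Space Y] [TopologicalSpace C]
    [TopologicalSpace Z] {Θ : Y → Set C} (hK : IsCompact {p : Y × C | p.2 ∈ Θ p.1}) {A : Set C}
    (hA : ∀ y, Θ y ⊆ A) {G : C → Z} {y₀ : Y} {z₀ : Z}
    (hG : ∀ θ ∈ Θ y₀, G θ = z₀ ∧ ContinuousWithinAt G A θ) {N : Set Z} (hN : N ∈ 𝓝 z₀) :
    ∀ᶠ y in 𝓝 y₀, ∀ θ ∈ Θ y, G θ ∈ N := by
  set W : Set C := ⋃₀ {V : Set C | IsOpen V ∧ V ∩ A ⊆ G ⁻¹' N} with hW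
  have hWo : IsOpen W := isOpen_sUnion fun V hV => hV.1
  have hWN : ∀ θ ∈ W, θ ∈ A → G θ ∈ N := by
    rintro θ ⟨V, hV, hθ⟩ hθA
    exact hV.2 ⟨hθ, hθA⟩
  have hW0 : ∀ θ ∈ Θ y₀, θ ∈ W := by
    intro θ hθ
    have h1 : G ⁻¹' N ∈ 𝓝[A] θ := by
      refine (hG θ hθ).2 ?_
      rw [(hG θ hθ).1]
      exact hN
    obtain ⟨V, hV, hθV, hVN⟩ := mem_nhdsWithin.1 h1
    exact ⟨V, ⟨hV, hVN⟩, hθV⟩
  have h1 : IsCompact ({p : Y × C | p.2 ∈ Θ p.1} \ (Prod.snd ⁻¹' W)) :=
    hK.diff (hWo.preimage continuous_snd)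
  have h2 : IsClosed (Prod.fst '' ({p : Y × C | p.2 ∈ Θ p.1} \ (Prod.snd ⁻¹' W))) :=
    (h1.image continuous_fst).isClosed
  have h3 : y₀ ∉ Prod.fst '' ({p : Y × C | p.2 ∈ Θ p.1} \ (Prod.snd ⁻¹' W)) := by
    rintro ⟨⟨y, θ⟩, ⟨hp, hpW⟩, hy⟩
    simp only at hy
    subst hy
    exact hpW (hW0 θ hp)
  filter_upwards [h2.isOpen_compl.mem_nhds h3] with y hy θ hθ
  refine hWN θ ?_ (hA y hθ)
  by_contra hθW
  exact hy ⟨(y, θ), ⟨hθ, hθW⟩, rfl⟩

variable {X M : Type} [MetricSpace X] [CompactSpace X] [MetricSpace M] [CompactSpace M]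

open Classical in
/-- composition with `τ` -/
noncomputable def tS (τ : X → X) (θ : C(M, X)) : C(M, X) :=
  if h : Continuous (fun m => τ (θ m)) then ⟨fun m => τ (θ m), h⟩ else θ

theorem tS_eq {τ : X → X} {θ θ' : C(M, X)} (h : ∀ m, θ' m = τ (θ m)) : tS τ θ = θ' := by
  have h1 : (fun m => τ (θ m)) = θ' := by
    funext m
    exact (h m).symm
  have h2 : Continuous (fun m => τ (θ m)) := by
    rw [h1]
    exact θ'.continuous
  unfold tS
  rw [dif_pos h2]
  ext m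
  exact (h m).symm

omit [CompactSpace X] in
theorem tS_apply {τ : X → X} {θ : C(M, X)} (h : Continuous fun m => τ (θ m)) (m : M) :
    tS τ θ m = τ (θ m) := by
  unfold tS
  rw [dif_pos h]
  rfl

omit [CompactSpace X] in
theorem tS_within {τ : X → X} {θ₀ : C(M, X)} (h₀ : Continuous fun m => τ (θ₀ m))
    (hτ : ∀ m, ContinuousAt τ (θ₀ m)) :
    ContinuousWithinAt (tS τ) {θ : C(M, X) | Continuous fun m => τ (θ m)} θ₀ := by
  rw [Metric.continuousWithinAt_iff]
  intro ε hε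
  have h1 := IsCompact.uniformContinuousAt_of_continuousAt (isCompact_range θ₀.continuous) τ
    (by rintro _ ⟨m, rfl⟩; exact hτ m) (Metric.dist_mem_uniformity hε)
  obtain ⟨δ, hδ, h2⟩ := Metric.mem_uniformity_dist.1 h1
  refine ⟨δ, hδ, fun {θ} hθ hd => ?_⟩
  rw [ContinuousMap.dist_lt_iff hε]
  intro m
  rw [tS_apply hθ, tS_apply h₀, dist_comm]
  have h3 : dist (θ₀ m) (θ m) < δ := by
    rw [dist_comm]
    exact (ContinuousMap.dist_lt_iff hδ).1 hd m
  exact h2 h3 (Set.mem_range_self m)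

/-! ### coefficients -/

variable [MeasurableSpace M] [BorelSpace M] (μ : Measure M) [IsProbabilityMeasure μ] {d : ℕ}
  (e : Fin d → C(M, ℂ))

theorem coeff_bound (i : Fin d) (f g : C(M, ℂ)) :
    ‖(∫ m, conj (e i m) * f m ∂μ) - ∫ m, conj (e i m) * g m ∂μ‖ ≤ ‖e i‖ * dist f g := by
  have hint : ∀ f : C(M, ℂ), Integrable (fun m => conj (e i m) * f m) μ := by
    intro f
    have hc : Continuous fun m => conj (e i m) * f m :=
      (Complex.continuous_conj.comp (e i).continuous).mul f.continuous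
    exact hc.integrable_of_hasCompactSupport (HasCompactSupport.of_compactSpace _)
  rw [← integral_sub (hint f) (hint g)]
  have h1 : ∀ m, ‖conj (e i m) * f m - conj (e i m) * g m‖ ≤ ‖e i‖ * dist f g := by
    intro m
    rw [← mul_sub, norm_mul, RCLike.norm_conj]
    refine mul_le_mul ((e i).norm_coe_le_norm m) ?_ (norm_nonneg _) (norm_nonneg _)
    rw [← dist_eq_norm]
    exact ContinuousMap.dist_apply_le_dist m
  refine (norm_integral_le_of_norm_le_const (Eventually.of_forall h1)).trans ?_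
  simp

theorem cf_continuous : Continuous fun f : C(M, ℂ) => cf μ e f := by
  unfold cf
  refine (PiLp.continuous_toLp 2 _).comp (continuous_pi fun i => ?_)
  refine continuous_iff_continuousAt.2 fun f => ?_
  rw [Metric.continuousAt_iff]
  intro ε hε
  refine ⟨ε / (‖e i‖ + 1), by positivity, fun {g} hg => ?_⟩
  rw [dist_eq_norm]
  refine (coeff_bound μ e i g f).trans_lt ?_
  have h1 : dist g f * (‖e i‖ + 1) < ε := (lt_div_iff₀ (by positivity)).1 hg
  have h2 : 0 ≤ dist g f := dist_nonneg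
  nlinarith [norm_nonneg (e i)]

theorem cf_comp_continuous (F : C(X, ℂ)) :
    Continuous fun θ : C(M, X) => cf μ e fun m => F (θ m) :=
  (cf_continuous μ e).comp (F.continuous_postcomp)

theorem HO_continuous (h : Fin d → C(X, ℂ)) : Continuous fun θ : C(M, X) => HO μ e h θ := by
  unfold HO
  refine continuous_finset_sum _ fun j _ => ?_
  exact (ContinuousLinearMap.smulRightL ℂ (E d) (E d)
    (EuclideanSpace.proj j : E d →L[ℂ] ℂ)).continuous.comp (cf_comp_continuous μ e (h j))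

theorem HO_apply (h : Fin d → C(X, ℂ)) (θ : C(M, X)) (v : E d) :
    HO μ e h θ v = ∑ j, v j • cf μ e fun m => h j (θ m) := by
  unfold HO
  rw [ContinuousLinearMap.sum_apply]
  rfl

/-- the isometries act by unitary operators from the left -/
theorem HO_equiv (h : Fin d → C(X, ℂ)) {θ θ' : C(M, X)} {k : M ≃ᵢ M} {R : Op d}
    (hR : ∀ f : C(M, ℂ), cf μ e (fun m => f (k m)) = R (cf μ e f)) (hk : ∀ m, θ' m = θ (k m)) :
    HO μ e h θ' = R * HO μ e h θ := by
  ext1 v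
  rw [HO_apply, ContinuousLinearMap.mul_apply, HO_apply, map_sum]
  refine Finset.sum_congr rfl fun j _ => ?_
  rw [map_smul]
  congr 1
  have h1 := hR ((h j).comp θ)
  have h2 : (fun m => h j (θ' m)) = fun m => ((h j).comp θ) (k m) := by
    funext m
    rw [hk]
    rfl
  rw [h2, h1]
  rfl

/-- continuity at one point of a map which is given by compact fibres -/
theorem cont_of_fib {Z : Type*} [TopologicalSpace Z] {r : ℕ} {Θ : T r → Set C(M, X)}
    (hK : IsCompact {p : T r × C(M, X) | p.2 ∈ Θ p.1}) {A : Set C(M, X)} (hA : ∀ y, Θ y ⊆ A)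
    {θ₀ : T r → C(M, X)} (hθ₀ : ∀ y, θ₀ y ∈ Θ y) {Φ : T r → Z} {G : C(M, X) → Z} {y₀ : T r}
    (hΦ : ∀ᶠ y in 𝓝 y₀, Φ y = G (θ₀ y)) (hG0 : ∀ θ ∈ Θ y₀, G θ = Φ y₀)
    (hG : ∀ θ ∈ Θ y₀, ContinuousWithinAt G A θ) : ContinuousAt Φ y₀ := by
  intro N hN
  have h1 := fib_cont hK hA (fun θ hθ => ⟨hG0 θ hθ, hG θ hθ⟩) hN
  have h2 : ∀ᶠ y in 𝓝 y₀, Φ y ∈ N := by
    filter_upwards [h1, hΦ] with y hy hy2
    rw [hy2]
    exact hy _ (hθ₀ y)
  exact h2

theorem star_cont : Continuous (star : Op d → Op d) :=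
  (ContinuousLinearMap.adjoint (𝕜 := ℂ) (E := E d) (F := E d)).continuous

theorem st1 {R : Op d} (h : R ∈ unitary (Op d)) : star R * R = 1 := h.1

theorem st2 {R : Op d} (h : R ∈ unitary (Op d)) : R * star R = 1 := h.2

theorem cyc (hF : ST_FRM) (hP : ST_POL) (hC : ST_CVR) : ST_CYC := by
  intro X _ _ r π S τ M _ _ _ _ μ _ Θ d e hM hFr hS hmp hτ
  obtain ⟨pol, hpol, hpolR⟩ := hP d
  choose h O hO hyO hunit using fun y₁ => hF X r π S τ M μ Θ d e hM hFr y₁
  obtain ⟨n, c, i, hi, hiae⟩ := hC r O (fun y => ⟨hO y, hyO y⟩)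
  obtain ⟨hne, hinj, htr, hcl, hτΘ, hK⟩ := hM
  set u : T r → C(M, X) → Op d := fun y θ => pol (HO μ e (h (c (i y))) θ) with hu
  have hun : ∀ y, ∀ θ ∈ Θ y, IsUnit (HO μ e (h (c (i y))) θ) := fun y θ hθ =>
    hunit (c (i y)) y (hi y) θ hθ
  have huu : ∀ y, ∀ θ ∈ Θ y, u y θ ∈ unitary (Op d) := fun y θ hθ => (hpol _ (hun y θ hθ)).1
  have huk : ∀ y, ∀ k : M ≃ᵢ M, ∀ R ∈ unitary (Op d),
      (∀ f : C(M, ℂ), cf μ e (fun m => f (k m)) = R (cf μ e f)) → ∀ θ θ' : C(M, X),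
      (∀ m, θ' m = θ (k m)) → u y θ' = R * u y θ := by
    intro y k R hR hRf θ θ' hθ
    simp only [hu]
    rw [HO_equiv μ e (h (c (i y))) hRf hθ, hpolR R hR]
  choose θ₀ hθ₀ using hne
  choose τ' hτ'1 hτ'2 using hτΘ
  set φ : T r → Op d := fun y => star (u (S y) (τ' y (θ₀ y) (hθ₀ y))) * u y (θ₀ y) with hφ
  -- independence of the choices
  have hφi : ∀ y, ∀ θ ∈ Θ y, ∀ θ' : C(M, X), (∀ m, θ' m = τ (θ m)) →
      star (u (S y) θ') * u y θ = φ y := by
    intro y θ hθ θ' hθ'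
    obtain ⟨k, hk⟩ := htr y (θ₀ y) (hθ₀ y) θ hθ
    obtain ⟨R, hR, hRf⟩ := hFr.2 k
    have h1 := huk y k R hR hRf (θ₀ y) θ hk
    have h2 := huk (S y) k R hR hRf (τ' y (θ₀ y) (hθ₀ y)) θ' (fun m => by
      rw [hθ', hk, hτ'2])
    rw [h1, h2, star_mul, mul_assoc, ← mul_assoc (star R), st1 hR, one_mul]
  have hφu : ∀ y, φ y ∈ unitary (Op d) := fun y =>
    mul_mem (Unitary.star_mem (huu _ _ (hτ'1 y _ _))) (huu _ _ (hθ₀ y))
  have hθc : ∀ y, Θ y ⊆ {θ : C(M, X) | Continuous fun m => τ (θ m)} := by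
    intro y θ hθ
    have h1 : (fun m => τ (θ m)) = τ' y θ hθ := by
      funext m
      exact (hτ'2 y θ hθ m).symm
    show Continuous fun m => τ (θ m)
    rw [h1]
    exact (τ' y θ hθ).continuous
  have htS : ∀ y, ∀ θ (hθ : θ ∈ Θ y), tS τ θ = τ' y θ hθ := fun y θ hθ => tS_eq (hτ'2 y θ hθ)
  refine ⟨φ, ⟨?_, hφu⟩, fun F => ?_⟩
  · have hi2 : ∀ᵐ y ∂(mm r), ∀ᶠ y' in 𝓝 (S y), i y' = i (S y) :=
      hmp.quasiMeasurePreserving.ae hiae
    have hτ2 : ∀ᵐ y ∂(mm r), ∀ x, π x = y → ContinuousAt τ x := hτ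
    filter_upwards [hiae, hi2, hτ2] with y hy1 hy2 hy3
    refine cont_of_fib (G := fun θ => star (pol (HO μ e (h (c (i (S y)))) (tS τ θ))) *
      pol (HO μ e (h (c (i y))) θ)) hK hθc hθ₀ ?_ ?_ ?_
    · filter_upwards [hy1, hS.continuousAt.eventually hy2] with y' h1 h2
      simp only [hφ, hu]
      rw [h1, h2, htS y' (θ₀ y') (hθ₀ y')]
    · intro θ hθ
      exact hφi y θ hθ (tS τ θ) (tS_apply (hθc y hθ))
    · intro θ hθ
      have h1 : ContinuousWithinAt (tS τ) {θ : C(M, X) | Continuous fun m => τ (θ m)} θ :=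
        tS_within (hθc y hθ) fun m => hy3 _ (((hinj y θ hθ).2 _).2 ⟨m, rfl⟩)
      have h2 : ContinuousWithinAt (fun θ => HO μ e (h (c (i (S y)))) (tS τ θ))
          {θ : C(M, X) | Continuous fun m => τ (θ m)} θ :=
        (HO_continuous μ e (h (c (i (S y))))).continuousAt.comp_continuousWithinAt h1
      have h3 : ContinuousAt pol (HO μ e (h (c (i (S y)))) (tS τ θ)) := by
        rw [htS y θ hθ]
        exact (hpol _ (hun (S y) _ (hτ'1 y θ hθ))).2
      have h4 : ContinuousAt pol (HO μ e (h (c (i y))) θ) := (hpol _ (hun y θ hθ)).2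
      have h5 : ContinuousWithinAt (fun θ => pol (HO μ e (h (c (i (S y)))) (tS τ θ)))
          {θ : C(M, X) | Continuous fun m => τ (θ m)} θ :=
        ContinuousAt.comp_continuousWithinAt (g := pol) h3 h2
      have h6 : ContinuousWithinAt (fun θ => pol (HO μ e (h (c (i y))) θ))
          {θ : C(M, X) | Continuous fun m => τ (θ m)} θ :=
        ContinuousAt.comp_continuousWithinAt (g := pol) h4
          (HO_continuous μ e (h (c (i y)))).continuousWithinAt
      exact (star_cont.continuousAt.comp_continuousWithinAt h5).mul h6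
  -- the functions
  set f : T r → E d := fun y => star (u y (θ₀ y)) (cf μ e fun m => F (θ₀ y m)) with hf
  have hfi : ∀ y, ∀ θ ∈ Θ y, star (u y θ) (cf μ e fun m => F (θ m)) = f y := by
    intro y θ hθ
    obtain ⟨k, hk⟩ := htr y (θ₀ y) (hθ₀ y) θ hθ
    obtain ⟨R, hR, hRf⟩ := hFr.2 k
    have h1 := huk y k R hR hRf (θ₀ y) θ hk
    have h2 : cf μ e (fun m => F (θ m)) = R (cf μ e fun m => F (θ₀ y m)) := by
      have h3 := hRf (F.comp (θ₀ y))
      have h4 : (fun m => F (θ m)) = fun m => (F.comp (θ₀ y)) (k m) := by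
        funext m
        rw [hk]
        rfl
      rw [h4, h3]
      rfl
    rw [h1, h2, star_mul, ← ContinuousLinearMap.mul_apply, mul_assoc, st1 hR, mul_one]
  have hfu : ∀ y, ∀ θ ∈ Θ y, u y θ (f y) = cf μ e fun m => F (θ m) := by
    intro y θ hθ
    rw [← hfi y θ hθ, ← ContinuousLinearMap.mul_apply, st2 (huu y θ hθ)]
    rfl
  refine ⟨f, ⟨?_, ?_⟩, ?_⟩
  · filter_upwards [hiae] with y hy1
    refine cont_of_fib (A := Set.univ) (G := fun θ => star (pol (HO μ e (h (c (i y))) θ))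
      (cf μ e fun m => F (θ m))) hK (fun y => Set.subset_univ _) hθ₀ ?_ ?_ ?_
    · filter_upwards [hy1] with y' h1
      simp only [hf, hu]
      rw [h1]
    · intro θ hθ
      exact hfi y θ hθ
    · intro θ hθ
      have h4 : ContinuousAt pol (HO μ e (h (c (i y))) θ) := (hpol _ (hun y θ hθ)).2
      have h6 : ContinuousAt (fun θ => pol (HO μ e (h (c (i y))) θ)) θ :=
        ContinuousAt.comp (g := pol) h4 (HO_continuous μ e (h (c (i y)))).continuousAt
      exact ((star_cont.continuousAt.comp h6).clm_apply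
        (cf_comp_continuous μ e F).continuousAt).continuousWithinAt
  · have h1 : IsCompact (Prod.snd '' {p : T r × C(M, X) | p.2 ∈ Θ p.1}) :=
      hK.image continuous_snd
    obtain ⟨C, hC⟩ := (h1.image (cf_comp_continuous μ e F)).isBounded.exists_norm_le
    refine ⟨C, fun y => ?_⟩
    have h2 := hC _ ⟨θ₀ y, ⟨(y, θ₀ y), hθ₀ y, rfl⟩, rfl⟩
    have h3 : ‖f y‖ = ‖cf μ e fun m => F (θ₀ y m)‖ := by
      have h4 := Pool.Agent.Helper16.AZ.unitary_norm (huu y _ (hθ₀ y)) (f y)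
      rw [hfu y _ (hθ₀ y)] at h4
      exact h4.symm
    rw [h3]
    exact h2
  · intro y θ hθ
    refine ⟨u y θ, huu y θ hθ, fun n => ?_⟩
    have key : ∀ n : ℕ, ∃ θn ∈ Θ (S^[n] y), (∀ m, θn m = τ^[n] (θ m)) ∧
        u (S^[n] y) θn = u y θ * star (co S φ n y) := by
      intro n
      induction n with
      | zero =>
        refine ⟨θ, hθ, fun m => rfl, ?_⟩
        rw [Pool.Agent.Helper16.BZ.co_zero, star_one, mul_one]
        rfl
      | succ n ih =>
        obtain ⟨θn, hn1, hn2, hn3⟩ := ih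
        refine ⟨τ' _ θn hn1, ?_, fun m => ?_, ?_⟩
        · rw [Function.iterate_succ_apply']
          exact hτ'1 _ θn hn1
        · rw [hτ'2, hn2, Function.iterate_succ_apply']
        · rw [Pool.Agent.Helper16.BZ.co_succ, star_mul, ← mul_assoc, ← hn3,
            ← hφi (S^[n] y) θn hn1 (τ' _ θn hn1) (hτ'2 _ θn hn1), star_mul, star_star,
            ← mul_assoc, st2 (huu _ θn hn1), one_mul, Function.iterate_succ_apply']
    obtain ⟨θn, hn1, hn2, hn3⟩ := key n
    have h1 : (fun m => F (τ^[n] (θ m))) = fun m => F (θn m) := by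
      funext m
      rw [hn2]
    rw [h1, ← hfu _ θn hn1, hn3]
    rfl

end Pool.Agent.Helper36.IZY

namespace Pool.Agent.Helper40.IZ

theorem st_CYC : ST_FRM → ST_POL → ST_CVR → ST_CYC := Pool.Agent.Helper36.IZY.cyc

end Pool.Agent.Helper40.IZ
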